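import Pool.Agent.H5.Dem.Stmts

/-! # DEM module CUP: cup products on open subgroups -/

set_option autoImplicit false

namespace Pool.Agent.H5.Dem

namespace CUPaux

theorem odd_smul {N : Type} [AddCommGroup N] (h2 : ∀ v : N, 2 • v = 0) (a : (ZMod 8)ˣ) (v : N) :
    ((a : ZMod 8).val) • v = v := by
  have h : ∀ a : (ZMod 8)ˣ, (a : ZMod 8).val % 2 = 1 := by decide
  have h1 := h a
  obtain ⟨j, hj⟩ : ∃ j, (a : ZMod 8).val = j * 2 + 1 := ⟨(a : ZMod 8).val / 2, by omega⟩
  rw [hj, add_smul, mul_smul, h2, smul_zero, zero_add, one_smul]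

/-- the action on `F_2 × N` given by a homomorphism `b` to `Hom (N, F_2)` -/
def act {Γ N : Type} [Group Γ] [AddCommGroup N] (b : Γ → N →+ ZMod 2)
    (hb : ∀ g h v, b (g * h) v = b g v + b h v) : Γ →* Au (ZMod 2 × N) where
  toFun g := (AddEquiv.toIntLinearEquiv
    { toFun := fun p => (p.1 + b g p.2, p.2)
      invFun := fun p => (p.1 - b g p.2, p.2)
      left_inv := fun p => by simp
      right_inv := fun p => by simp
      map_add' := fun p q => by
        ext
        · simp only [Prod.fst_add, Prod.snd_add, map_add]; ring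
        · rfl })
  map_one' := by
    have h1 : ∀ v, b 1 v = 0 := fun v => by
      have := hb 1 1 v
      rw [one_mul] at this
      simpa using this
    apply LinearEquiv.ext
    intro p
    apply Prod.ext
    · show p.1 + b 1 p.2 = p.1
      rw [h1, add_zero]
    · rfl
  map_mul' g h := by
    apply LinearEquiv.ext
    intro p
    apply Prod.ext
    · show p.1 + b (g * h) p.2 = p.1 + b h p.2 + b g p.2
      rw [hb]; ring
    · rfl

theorem act_apply {Γ N : Type} [Group Γ] [AddCommGroup N] (b : Γ → N →+ ZMod 2)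
    (hb : ∀ g h v, b (g * h) v = b g v + b h v) (g : Γ) (p : ZMod 2 × N) :
    act b hb g p = (p.1 + b g p.2, p.2) := rfl

theorem ker_open {Γ N : Type} [Group Γ] [TopologicalSpace Γ] [AddCommGroup N]
    (b : Γ → N →+ ZMod 2) (hb : ∀ g h v, b (g * h) v = b g v + b h v)
    (hl : IsLocallyConstant b) : IsOpen ((act b hb).ker : Set Γ) := by
  have : ((act b hb).ker : Set Γ) = b ⁻¹' {0} := by
    ext g
    simp only [SetLike.mem_coe, MonoidHom.mem_ker, Set.mem_preimage, Set.mem_singleton_iff]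
    constructor
    · intro h
      ext v
      have h1 := congrArg (fun f : Au (ZMod 2 × N) => (f (0, v)).1) h
      simpa [act_apply] using h1
    · intro h
      apply LinearEquiv.ext
      intro p
      rw [act_apply, h]
      simp
  rw [this]
  exact hl.isOpen_fiber 0

theorem card_JJ {Γ N : Type} [Group Γ] [AddCommGroup N] [Finite N] (b : Γ → N →+ ZMod 2)
    (hb : ∀ g h v, b (g * h) v = b g v + b h v) (h2 : ∀ v : N, 2 • v = 0)
    (hne : ∃ u v, b u v = 1) (χ : Γ →* (ZMod 8)ˣ) :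
    Nat.card (JJ (act b hb) χ) = Nat.card N := by
  have h2' : ∀ v : ZMod 2 × N, 2 • v = 0 := by
    intro v
    ext
    · show 2 • v.1 = 0
      have : ∀ a : ZMod 2, 2 • a = 0 := by decide
      exact this _
    · exact h2 _
  have key : ∀ ψ : AddChar (ZMod 2 × N) ℂ, ψ ∈ JJ (act b hb) χ ↔ ψ (1, 0) = 1 := by
    intro ψ
    constructor
    · intro h
      obtain ⟨u, v, huv⟩ := hne
      have h1 := h u (0, v)
      rw [odd_smul h2', act_apply] at h1
      simp only [huv, zero_add] at h1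
      have h3 : ((1 : ZMod 2), v) = (1, 0) + (0, v) := by simp
      rw [h3, AddChar.map_add_eq_mul] at h1
      have h4 : ψ (0, v) ≠ 0 := by
        intro h0
        have h5 := ψ.map_add_eq_mul (0, v) (-(0, v))
        rw [add_neg_cancel, AddChar.map_zero_eq_one, h0, zero_mul] at h5
        exact one_ne_zero h5
      exact mul_right_cancel₀ h4 (by rw [h1, one_mul])
    · intro h u m
      rw [odd_smul h2', act_apply]
      have h3 : (m.1 + b u m.2, m.2) = (b u m.2, (0 : N)) + m := by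
        ext
        · simp only [Prod.fst_add]; ring
        · simp
      rw [h3, AddChar.map_add_eq_mul]
      have h5 : ∀ a : ZMod 2, ψ (a, 0) = 1 := by
        intro a
        have : a = 0 ∨ a = 1 := by
          revert a; decide
        rcases this with rfl | rfl
        · exact ψ.map_zero_eq_one
        · exact h
      rw [h5, one_mul]
  have e : JJ (act b hb) χ ≃ AddChar N ℂ :=
    { toFun := fun ψ => ψ.1.compAddMonoidHom (AddMonoidHom.inr (ZMod 2) N)
      invFun := fun φ => ⟨φ.compAddMonoidHom (AddMonoidHom.snd (ZMod 2) N), by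
        rw [key]
        simp⟩
      left_inv := by
        rintro ⟨ψ, hψ⟩
        apply Subtype.ext
        rw [key] at hψ
        ext p
        simp only [AddChar.compAddMonoidHom_apply, AddMonoidHom.coe_snd, AddMonoidHom.inr_apply]
        have h3 : p = (p.1, 0) + (0, p.2) := by simp
        conv_rhs => rw [h3, AddChar.map_add_eq_mul]
        have h5 : ∀ a : ZMod 2, ψ (a, 0) = 1 := by
          intro a
          have : a = 0 ∨ a = 1 := by
            revert a; decide
          rcases this with rfl | rfl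
          · exact ψ.map_zero_eq_one
          · exact hψ
        rw [h5, one_mul]
      right_inv := by
        intro φ
        ext v
        simp }
  rw [Nat.card_congr e]
  have := Fintype.ofFinite N
  rw [Nat.card_eq_fintype_card (α := N), ← AddChar.card_eq, Nat.card_eq_fintype_card]

theorem count {G : Type} [Group G] [TopologicalSpace G] {x y z : G} (hE : EULStmt)
    (hC : CHI0Stmt) (h : IsG G x y z) {V : Subgroup G} (hV : IsOpen (V : Set G)) {N : Type}
    [AddCommGroup N] [Finite N] (b : V → N →+ ZMod 2)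
    (hb : ∀ g h v, b (g * h) v = b g v + b h v) (hl : IsLocallyConstant b)
    (h2 : ∀ v : N, 2 • v = 0) (hne : ∃ u v, b u v = 1) :
    Nat.card (Z1 (act b hb)) = (2 * Nat.card N) ^ (V.index + 1) * Nat.card N := by
  obtain ⟨χ, hχ⟩ := hC G x y z h
  have h8 : ∀ m : ZMod 2 × N, 8 • m = 0 := by
    intro v
    have e : ∀ w : N, 8 • w = 0 := fun w => by
      rw [show (8 : ℕ) = 4 * 2 by norm_num, mul_smul, h2, smul_zero]
    ext
    · show 8 • v.1 = 0
      have : ∀ a : ZMod 2, 8 • a = 0 := by decide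
      exact this _
    · exact e _
  have h1 := hE G x y z h χ hχ V hV (ZMod 2 × N) (act b hb) h8 (ker_open b hb hl)
  rw [h1, card_JJ b hb h2 hne, Nat.card_prod, Nat.card_zmod]

theorem card_ker_range {A B : Type} [AddCommGroup A] [AddCommGroup B] (f : A →+ B) :
    Nat.card A = Nat.card f.range * Nat.card f.ker := by
  rw [← AddSubgroup.index_ker, mul_comm, AddSubgroup.card_mul_index]

/-- multiplication by `a` -/
def ml (a : ZMod 2) : ZMod 2 →+ ZMod 2 := AddMonoidHom.mulLeft a

theorem ml_apply (a v : ZMod 2) : ml a v = a * v := rfl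

section

variable {Γ : Type} [Group Γ] [TopologicalSpace Γ] (ω f₁ : H1 2 Γ)

def b2 : Γ → ZMod 2 →+ ZMod 2 := fun g => ml (ω.1 g)

theorem b2_mul (g h : Γ) (v : ZMod 2) : b2 ω (g * h) v = b2 ω g v + b2 ω h v := by
  simp only [b2, ml_apply, ω.2.2]; ring

theorem b2_lc : IsLocallyConstant (b2 ω) := ω.2.1.comp ml

def b3 : Γ → (ZMod 2 × ZMod 2) →+ ZMod 2 := fun g => (ml (f₁.1 g)).coprod (ml (ω.1 g))

theorem b3_apply (g : Γ) (v : ZMod 2 × ZMod 2) : b3 ω f₁ g v = f₁.1 g * v.1 + ω.1 g * v.2 := rfl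

theorem b3_mul (g h : Γ) (v : ZMod 2 × ZMod 2) :
    b3 ω f₁ (g * h) v = b3 ω f₁ g v + b3 ω f₁ h v := by
  simp only [b3_apply, ω.2.2, f₁.2.2]; ring

theorem b3_lc : IsLocallyConstant (b3 ω f₁) :=
  (f₁.2.1.prodMk ω.2.1).comp (fun p => (ml p.1).coprod (ml p.2))

/-- the abbreviation for the groups of crossed homomorphisms -/
abbrev Z2' := Z1 (act (b2 ω) (b2_mul ω))

abbrev Z3' := Z1 (act (b3 ω f₁) (b3_mul ω f₁))

theorem mem_Z2' (c : Γ → ZMod 2 × ZMod 2) : c ∈ Z2' ω ↔ IsLocallyConstant c ∧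
    (∀ g h, (c (g * h)).1 = (c g).1 + ((c h).1 + ω.1 g * (c h).2)) ∧
    ∀ g h, (c (g * h)).2 = (c g).2 + (c h).2 := by
  constructor
  · rintro ⟨h1, h2⟩
    exact ⟨h1, fun g h => congrArg Prod.fst (h2 g h), fun g h => congrArg Prod.snd (h2 g h)⟩
  · rintro ⟨h1, h2, h3⟩
    exact ⟨h1, fun g h => Prod.ext (h2 g h) (h3 g h)⟩

theorem mem_Z3' (c : Γ → ZMod 2 × (ZMod 2 × ZMod 2)) : c ∈ Z3' ω f₁ ↔ IsLocallyConstant c ∧
    (∀ g h, (c (g * h)).1 = (c g).1 + ((c h).1 + (f₁.1 g * (c h).2.1 + ω.1 g * (c h).2.2))) ∧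
    (∀ g h, (c (g * h)).2.1 = (c g).2.1 + (c h).2.1) ∧
    ∀ g h, (c (g * h)).2.2 = (c g).2.2 + (c h).2.2 := by
  constructor
  · rintro ⟨h1, h2⟩
    exact ⟨h1, fun g h => congrArg Prod.fst (h2 g h),
      fun g h => congrArg (fun p => p.2.1) (h2 g h),
      fun g h => congrArg (fun p => p.2.2) (h2 g h)⟩
  · rintro ⟨h1, h2, h3, h4⟩
    exact ⟨h1, fun g h => Prod.ext (h2 g h) (Prod.ext (h3 g h) (h4 g h))⟩

/-- projection `(e, k) ↦ k` -/
def π2 : Z2' ω →+ H1 2 Γ where
  toFun c := ⟨fun g => (c.1 g).2, by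
    have h := (mem_Z2' ω _).mp c.2
    exact ⟨h.1.comp Prod.snd, h.2.2⟩⟩
  map_zero' := rfl
  map_add' _ _ := rfl

/-- projection `(e, f, k) ↦ f` -/
def π3 : Z3' ω f₁ →+ H1 2 Γ where
  toFun c := ⟨fun g => (c.1 g).2.1, by
    have h := (mem_Z3' ω f₁ _).mp c.2
    exact ⟨h.1.comp (fun p => p.2.1), h.2.2.1⟩⟩
  map_zero' := rfl
  map_add' _ _ := rfl

theorem card_ker_π2 : Nat.card (π2 ω).ker = Nat.card (H1 2 Γ) := by
  refine Nat.card_congr
    { toFun := fun c => ⟨fun g => (c.1.1 g).1, ?_⟩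
      invFun := fun e => ⟨⟨fun g => (e.1 g, 0), ?_⟩, ?_⟩
      left_inv := ?_
      right_inv := ?_ }
  · have h := (mem_Z2' ω _).mp c.1.2
    have hk : ∀ g, (c.1.1 g).2 = 0 := fun g => by
      have := c.2
      rw [AddMonoidHom.mem_ker] at this
      exact congrFun (congrArg Subtype.val this) g
    refine ⟨h.1.comp Prod.fst, fun a b => ?_⟩
    have := h.2.1 a b
    rw [hk b] at this
    simpa using this
  · rw [mem_Z2']
    refine ⟨e.2.1.comp (fun t => (t, 0)), fun a b => ?_, fun a b => ?_⟩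
    · simp only [e.2.2]; ring
    · simp
  · rw [AddMonoidHom.mem_ker]
    rfl
  · rintro ⟨⟨c, hc⟩, hk⟩
    apply Subtype.ext
    apply Subtype.ext
    funext g
    rw [AddMonoidHom.mem_ker] at hk
    have : (c g).2 = 0 := congrFun (congrArg Subtype.val hk) g
    exact Prod.ext rfl this.symm
  · rintro ⟨e, he⟩
    rfl

theorem card_ker_π3 : Nat.card (π3 ω f₁).ker = Nat.card (Z2' ω) := by
  refine Nat.card_congr
    { toFun := fun c => ⟨fun g => ((c.1.1 g).1, (c.1.1 g).2.2), ?_⟩
      invFun := fun e => ⟨⟨fun g => ((e.1 g).1, (0, (e.1 g).2)), ?_⟩, ?_⟩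
      left_inv := ?_
      right_inv := ?_ }
  · have h := (mem_Z3' ω f₁ _).mp c.1.2
    have hk : ∀ g, (c.1.1 g).2.1 = 0 := fun g => by
      have := c.2
      rw [AddMonoidHom.mem_ker] at this
      exact congrFun (congrArg Subtype.val this) g
    rw [mem_Z2']
    refine ⟨h.1.comp (fun p => (p.1, p.2.2)), fun a b => ?_, fun a b => ?_⟩
    · have := h.2.1 a b
      rw [hk b] at this
      simpa using this
    · exact h.2.2.2 a b
  · have h := (mem_Z2' ω _).mp e.2
    rw [mem_Z3']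
    refine ⟨h.1.comp (fun p => (p.1, (0, p.2))), fun a b => ?_, fun a b => ?_, fun a b => ?_⟩
    · have := h.2.1 a b
      simpa using this
    · simp
    · exact h.2.2 a b
  · rw [AddMonoidHom.mem_ker]
    rfl
  · rintro ⟨⟨c, hc⟩, hk⟩
    apply Subtype.ext
    apply Subtype.ext
    funext g
    rw [AddMonoidHom.mem_ker] at hk
    have : (c g).2.1 = 0 := congrFun (congrArg Subtype.val hk) g
    exact Prod.ext rfl (Prod.ext this.symm rfl)
  · rintro ⟨e, he⟩
    rfl

end

end CUPaux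

open CUPaux

theorem cup_mod (hE : EULStmt) (hC : CHI0Stmt) (hH : H1CStmt) : CUPStmt := by
  intro G _ _ x y z h V hV ω hω
  have hex : ∃ u, ω.1 u = 1 := by
    by_contra hc
    apply hω
    apply Subtype.ext
    funext u
    have h1 : ∀ a : ZMod 2, a ≠ 1 → a = 0 := by decide
    exact h1 _ (fun h => hc ⟨u, h⟩)
  obtain ⟨u, hu⟩ := hex
  have hcard := hH G x y z h V hV
  have hfin : Finite (H1 2 V) := Nat.finite_of_card_ne_zero (by rw [hcard]; positivity)
  have hz : ∀ a : ZMod 2, 2 • a = 0 := by decide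
  have hz2 : ∀ a : ZMod 2 × ZMod 2, 2 • a = 0 := fun a => Prod.ext (hz _) (hz _)
  have hc2 : Nat.card (Z2' ω) = (2 * 2) ^ (V.index + 1) * 2 := by
    have := count hE hC h hV (b2 ω) (b2_mul ω) (b2_lc ω) hz ⟨u, 1, by
      show ω.1 u * 1 = 1
      rw [hu, mul_one]⟩
    rwa [Nat.card_zmod] at this
  refine ⟨fun f₁ f₂ => ?_, ?_⟩
  · have hc3 : Nat.card (Z3' ω f₁) = (2 * (2 * 2)) ^ (V.index + 1) * (2 * 2) := by
      have := count hE hC h hV (b3 ω f₁) (b3_mul ω f₁) (b3_lc ω f₁) hz2 ⟨u, (0, 1), by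
        rw [b3_apply]
        simp [hu]⟩
      rwa [Nat.card_prod, Nat.card_zmod] at this
    have hkr := card_ker_range (π3 ω f₁)
    rw [card_ker_π3, hc2, hc3] at hkr
    have hr : Nat.card (π3 ω f₁).range = Nat.card (H1 2 V) := by
      rw [hcard]
      have hpos : 0 < (2 * 2) ^ (V.index + 1) * 2 := by positivity
      apply Nat.eq_of_mul_eq_mul_right hpos
      rw [← hkr]
      rw [mul_pow, mul_pow]
      ring
    have htop := AddSubgroup.eq_top_of_card_eq _ hr
    have hmem : f₂ ∈ (π3 ω f₁).range := by rw [htop]; trivial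
    obtain ⟨c, hc⟩ := hmem
    have hm := (mem_Z3' ω f₁ _).mp c.2
    have hf : ∀ g, (c.1 g).2.1 = f₂.1 g := fun g => congrFun (congrArg Subtype.val hc) g
    refine ⟨⟨fun g => (c.1 g).2.2, hm.1.comp (fun p => p.2.2), hm.2.2.2⟩, fun g => (c.1 g).1,
      hm.1.comp Prod.fst, fun a b => ?_⟩
    have := hm.2.1 a b
    rw [hf b] at this
    show (c.1 (a * b)).1 = (c.1 a).1 + (c.1 b).1 + f₁.1 a * f₂.1 b + ω.1 a * (c.1 b).2.2
    rw [this]
    ring
  · by_contra hcon
    push Not at hcon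
    have hsurj : (π2 ω).range = ⊤ := by
      rw [AddSubgroup.eq_top_iff']
      intro k
      obtain ⟨e, he1, he2⟩ := hcon k
      refine ⟨⟨fun g => (e g, k.1 g), ?_⟩, rfl⟩
      rw [mem_Z2']
      refine ⟨he1.prodMk k.2.1, fun a b => ?_, fun a b => k.2.2 a b⟩
      simp only [he2]
      ring
    have hkr := card_ker_range (π2 ω)
    rw [card_ker_π2, hsurj, hc2] at hkr
    have ht : Nat.card (⊤ : AddSubgroup (H1 2 V)) = Nat.card (H1 2 V) :=
      Nat.card_congr (Equiv.Set.univ _)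
    rw [ht, hcard, mul_pow] at hkr
    have hp : 0 < 2 ^ V.index := by positivity
    have e1 : 2 ^ (V.index + 1) * 2 ^ (V.index + 1) * 2 = 8 * (2 ^ V.index * 2 ^ V.index) := by
      ring
    have e2 : 2 ^ (V.index + 2) * 2 ^ (V.index + 2) = 16 * (2 ^ V.index * 2 ^ V.index) := by
      ring
    rw [e1, e2] at hkr
    have hp2 : 0 < 2 ^ V.index * 2 ^ V.index := by positivity
    omega

end Pool.Agent.H5.Dem
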